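import Pool.Agent.helper63.NU.CPDefs
import Pool.Agent.helper41.NU.A1

set_option autoImplicit false
set_option linter.all false

/-! Module P11: the Fubini–Study Hessian, its inverse and determinant. -/

open MeasureTheory Filter Topology Set
open scoped ContDiff Manifold Matrix ENNReal ComplexOrder

noncomputable section

namespace Pool.Agent.helper63.NU

variable {n : ℕ}

namespace P11

/-- `1 + |z|²` -/
def qq (z : E n) : ℝ := 1 + ∑ j, ‖z j‖ ^ 2

theorem qq_pos (z : E n) : 0 < qq z := by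
  unfold qq
  have : 0 ≤ ∑ j, ‖z j‖ ^ 2 := Finset.sum_nonneg fun _ _ => by positivity
  linarith

theorem differentiable_norm_sq (l : Fin n) : Differentiable ℝ fun z : E n => ‖z l‖ ^ 2 := by
  intro z
  have h : DifferentiableAt ℝ (fun z : E n => z l) z :=
    differentiableAt_apply l z
  exact h.norm_sq ℝ

theorem differentiable_qq : Differentiable ℝ (qq : E n → ℝ) := by
  unfold qq
  exact (differentiable_const _).add (Differentiable.fun_sum fun l _ => differentiable_norm_sq l)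

theorem dz_coord (j k : Fin n) (y : E n) : dz j (fun z => z k) y = if j = k then 1 else 0 := by
  rw [dz_hol (differentiableAt_apply (𝕜 := ℂ) k y)]
  have : fderiv ℂ (fun z : E n => z k) y = ContinuousLinearMap.proj k :=
    (ContinuousLinearMap.proj (R := ℂ) (φ := fun _ : Fin n => ℂ) k).fderiv
  rw [this]
  simp [Pi.single_apply, eq_comm]

theorem db_coord (j k : Fin n) (y : E n) : db j (fun z => z k) y = 0 :=
  db_hol (differentiableAt_apply (𝕜 := ℂ) k y) j

theorem diff_coord (k : Fin n) (y : E n) : DifferentiableAt ℝ (fun z : E n => z k) y :=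
  differentiableAt_apply k y

theorem diff_conj (k : Fin n) (y : E n) :
    DifferentiableAt ℝ (fun z : E n => (starRingEnd ℂ) (z k)) y :=
  Complex.conjCLE.differentiableAt.comp y (diff_coord k y)

theorem cx_qq : (fun z : E n => ((qq z : ℝ) : ℂ)) =
    fun z => 1 + ∑ l, z l * (starRingEnd ℂ) (z l) := by
  funext z
  unfold qq
  push_cast
  congr 1
  refine Finset.sum_congr rfl fun l _ => ?_
  rw [Complex.mul_conj, Complex.normSq_eq_norm_sq]
  push_cast
  rfl

theorem dz_qq (j : Fin n) (y : E n) :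
    dz j (fun z => ((qq z : ℝ) : ℂ)) y = (starRingEnd ℂ) (y j) := by
  have hd : ∀ l ∈ (Finset.univ : Finset (Fin n)),
      DifferentiableAt ℝ (fun z : E n => z l * (starRingEnd ℂ) (z l)) y :=
    fun l _ => (diff_coord l y).mul (diff_conj l y)
  rw [cx_qq, dz_add (f := fun _ => (1 : ℂ)) (differentiableAt_const _)
    (DifferentiableAt.fun_sum hd), dz_const, dz_sum _ hd, zero_add]
  have : ∀ l, dz j (fun z : E n => z l * (starRingEnd ℂ) (z l)) y =
      if j = l then (starRingEnd ℂ) (y l) else 0 := by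
    intro l
    rw [dz_mul (diff_coord l y) (diff_conj l y), dz_coord, dz_conj, db_coord]
    split_ifs <;> simp
  simp [this]

theorem db_qq (j : Fin n) (y : E n) : db j (fun z => ((qq z : ℝ) : ℂ)) y = y j := by
  have hd : ∀ l ∈ (Finset.univ : Finset (Fin n)),
      DifferentiableAt ℝ (fun z : E n => z l * (starRingEnd ℂ) (z l)) y :=
    fun l _ => (diff_coord l y).mul (diff_conj l y)
  rw [cx_qq, db_add (f := fun _ => (1 : ℂ)) (differentiableAt_const _)
    (DifferentiableAt.fun_sum hd), db_const, db_sum _ hd, zero_add]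
  have : ∀ l, db j (fun z : E n => z l * (starRingEnd ℂ) (z l)) y =
      if j = l then y l else 0 := by
    intro l
    rw [db_mul (diff_coord l y) (diff_conj l y), db_coord, db_conj, dz_coord]
    split_ifs <;> simp
  simp [this]

theorem db_log (k : Fin n) (y : E n) :
    db k (fun z => ((Real.log (qq z) : ℝ) : ℂ)) y = (((qq y)⁻¹ : ℝ) : ℂ) * y k := by
  rw [db_real_comp (g := Real.log) (Real.differentiableAt_log (qq_pos y).ne')
    (differentiable_qq y), db_qq, Real.deriv_log]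

theorem lev_qq (y : E n) (j k : Fin n) : lev (fun z => Real.log (qq z)) y j k =
    ((if j = k then 1 else 0) * ((qq y : ℝ) : ℂ) - (starRingEnd ℂ) (y j) * y k) /
      ((qq y : ℝ) : ℂ) ^ 2 := by
  have h0 : ((qq y : ℝ) : ℂ) ≠ 0 := by exact_mod_cast (qq_pos y).ne'
  have h1 : (fun y : E n => db k (fun z => ((Real.log (qq z) : ℝ) : ℂ)) y) =
      fun y => (((qq y)⁻¹ : ℝ) : ℂ) * y k := by
    funext y
    exact db_log k y
  have h2 : DifferentiableAt ℝ (fun z : E n => (((qq z)⁻¹ : ℝ) : ℂ)) y := by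
    have : DifferentiableAt ℝ (fun z : E n => (qq z)⁻¹) y :=
      (differentiable_qq y).inv (qq_pos y).ne'
    exact Complex.ofRealCLM.differentiableAt.comp y this
  show dz j (db k (fun z => ((Real.log (qq z) : ℝ) : ℂ))) y = _
  rw [show db k (fun z => ((Real.log (qq z) : ℝ) : ℂ)) = fun y => (((qq y)⁻¹ : ℝ) : ℂ) * y k
    from h1, dz_mul h2 (diff_coord k y), dz_coord,
    dz_real_comp (g := fun t => t⁻¹) (differentiableAt_inv (qq_pos y).ne') (differentiable_qq y),
    dz_qq, deriv_inv]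
  push_cast
  split_ifs <;> field_simp <;> ring

/-- the inverse matrix -/
def bb (y : E n) : Matrix (Fin n) (Fin n) ℂ :=
  (qq y) • (1 + Matrix.vecMulVec (star y) y)

theorem bb_apply (y : E n) (k j : Fin n) :
    bb y k j = ((qq y : ℝ) : ℂ) * ((if k = j then 1 else 0) + (starRingEnd ℂ) (y k) * y j) := by
  simp only [bb, Matrix.smul_apply, Matrix.add_apply, Matrix.one_apply, Matrix.vecMulVec_apply,
    Complex.real_smul]
  rfl

theorem sum_qq (y : E n) : ∑ l, y l * (starRingEnd ℂ) (y l) = ((qq y : ℝ) : ℂ) - 1 := by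
  have : ((qq y : ℝ) : ℂ) = 1 + ∑ l, y l * (starRingEnd ℂ) (y l) := congrFun (cx_qq (n := n)) y
  rw [this]
  ring

theorem mul_bb (y : E n) : lev (fun z => Real.log (qq z)) y * bb y = 1 := by
  have h0 : ((qq y : ℝ) : ℂ) ≠ 0 := by exact_mod_cast (qq_pos y).ne'
  ext j k
  rw [Matrix.mul_apply, Matrix.one_apply]
  have h : ∀ l, lev (fun z => Real.log (qq z)) y j l * bb y l k =
      (if j = l then ((if l = k then 1 else 0) + (starRingEnd ℂ) (y l) * y k) else 0)
      - (((qq y : ℝ) : ℂ))⁻¹ * (starRingEnd ℂ) (y j) * (if l = k then y l else 0)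
      - (((qq y : ℝ) : ℂ))⁻¹ * (starRingEnd ℂ) (y j) * y k * (y l * (starRingEnd ℂ) (y l)) := by
    intro l
    rw [lev_qq, bb_apply]
    split_ifs <;> field_simp <;> ring
  rw [Finset.sum_congr rfl fun l _ => h l, Finset.sum_sub_distrib, Finset.sum_sub_distrib,
    ← Finset.mul_sum, ← Finset.mul_sum, sum_qq]
  simp only [Finset.sum_ite_eq, Finset.sum_ite_eq', Finset.mem_univ, if_true]
  field_simp
  ring

theorem inv_lev (y : E n) : (lev (fun z => Real.log (qq z)) y)⁻¹ = bb y :=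
  Matrix.inv_eq_right_inv (mul_bb y)

theorem inv_bb (y : E n) : (bb y)⁻¹ = lev (fun z => Real.log (qq z)) y :=
  Matrix.inv_eq_left_inv (mul_bb y)

theorem det_bb (y : E n) : (bb y).det = ((qq y ^ (n + 1) : ℝ) : ℂ) := by
  have h1 : bb y = ((qq y : ℝ) : ℂ) • (1 + Matrix.vecMulVec (star y) y) := by
    ext k j
    rw [bb_apply]
    simp [Matrix.one_apply, Matrix.vecMulVec_apply]
  rw [h1, Matrix.det_smul, Matrix.vecMulVec_eq Unit,
    Matrix.det_one_add_replicateCol_mul_replicateRow, Fintype.card_fin]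
  have h2 : y ⬝ᵥ star y = ∑ l, y l * (starRingEnd ℂ) (y l) := rfl
  rw [h2, sum_qq]
  push_cast
  ring

theorem bb_posDef (y : E n) : (bb y).PosDef := by
  have h1 : (1 + Matrix.vecMulVec (star y) y : Matrix (Fin n) (Fin n) ℂ).PosDef :=
    Matrix.PosDef.one.add_posSemidef (Matrix.posSemidef_vecMulVec_star_self y)
  exact h1.smul (qq_pos y)

end P11

open P11

/-- `Θ_{jk} = δ_{jk}/(1+s) - conj y_j y_k/(1+s)²`, `s = ∑ |y_j|²` -/
theorem lev_fs (y : E n) (j k : Fin n) :
    lev (fun z => Real.log (1 + ∑ j, ‖z j‖ ^ 2)) y j k =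
      ((if j = k then 1 else 0) * ((1 + ∑ l, ‖y l‖ ^ 2 : ℝ) : ℂ) -
        (starRingEnd ℂ) (y j) * y k) / ((1 + ∑ l, ‖y l‖ ^ 2 : ℝ) : ℂ) ^ 2 := lev_qq y j k

/-- `Θ⁻¹ = (1+s)(δ_{kj} + conj y_k y_j)` -/
theorem lev_fs_inv (y : E n) (k j : Fin n) :
    (lev (fun z => Real.log (1 + ∑ j, ‖z j‖ ^ 2)) y)⁻¹ k j =
      ((1 + ∑ l, ‖y l‖ ^ 2 : ℝ) : ℂ) * ((if k = j then 1 else 0) +
        (starRingEnd ℂ) (y k) * y j) := by
  have := congrFun (congrFun (inv_lev y) k) j
  rw [bb_apply] at this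
  exact this

/-- `det Θ = (1+s)^{-(n+1)}` (matrix determinant lemma) -/
theorem det_lev_fs (y : E n) :
    (lev (fun z => Real.log (1 + ∑ j, ‖z j‖ ^ 2)) y).det =
      (((1 + ∑ l, ‖y l‖ ^ 2) ^ (n + 1) : ℝ) : ℂ)⁻¹ := by
  have h := congrArg Matrix.det (mul_bb y)
  rw [Matrix.det_mul, Matrix.det_one, det_bb] at h
  exact eq_inv_of_mul_eq_one_left h

/-- Cauchy–Schwarz -/
theorem lev_fs_posDef (y : E n) :
    (lev (fun z => Real.log (1 + ∑ j, ‖z j‖ ^ 2)) y).PosDef := by
  have h := (bb_posDef y).inv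
  rw [inv_bb] at h
  exact h

theorem lev_wFS (e : Ch n (CP n)) (y : E n) :
    lev (wFS n e) y = ((n + 1 : ℝ) : ℂ) • hFS n e y := by
  ext j k
  show dz j (db k (fun z => ((((n : ℝ) + 1) * Real.log (1 + ∑ j, ‖z j‖ ^ 2) : ℝ) : ℂ))) y =
    ((n + 1 : ℝ) : ℂ) * dz j (db k (fun z => ((Real.log (1 + ∑ j, ‖z j‖ ^ 2) : ℝ) : ℂ))) y
  have h1 : db k (fun z : E n => ((((n : ℝ) + 1) * Real.log (1 + ∑ j, ‖z j‖ ^ 2) : ℝ) : ℂ)) =
      fun y => ((n + 1 : ℝ) : ℂ) * db k (fun z => ((Real.log (1 + ∑ j, ‖z j‖ ^ 2) : ℝ) : ℂ)) y := by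
    funext y
    rw [← db_const_mul]
    congr 1
    funext z
    push_cast
    rfl
  rw [h1, dz_const_mul]

end Pool.Agent.helper63.NU
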