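import Pool.Agent.helper31.NU.P1

set_option autoImplicit false
set_option linter.all false

/-! Module P7: the logarithmic Sobolev inequality on `W^{1,2}`. -/

open MeasureTheory Filter Topology Set
open scoped ContDiff

noncomputable section

namespace Pool.Agent.helper31.NU

namespace P7

theorem fatou {α : Type*} [MeasurableSpace α] {μ : Measure α} {F : ℕ → α → ℝ} {G : α → ℝ}
    {c : ℕ → ℝ} {c' : ℝ} (h0 : ∀ i x, 0 ≤ F i x) (hint : ∀ i, Integrable (F i) μ)
    (hc : ∀ i, ∫ x, F i x ∂μ ≤ c i) (hlim : Tendsto c atTop (𝓝 c'))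
    (hae : ∀ᵐ x ∂μ, Tendsto (fun i => F i x) atTop (𝓝 (G x))) :
    Integrable G μ ∧ ∫ x, G x ∂μ ≤ c' := by
  have hG0 : 0 ≤ᵐ[μ] G := by
    filter_upwards [hae] with x hx
    exact ge_of_tendsto' hx fun i => h0 i x
  have hGm : AEStronglyMeasurable G μ :=
    aestronglyMeasurable_of_tendsto_ae atTop (fun i => (hint i).1) hae
  have hc0 : 0 ≤ c' := ge_of_tendsto' hlim fun i => (integral_nonneg (h0 i)).trans (hc i)
  have h1 : ∫⁻ x, ENNReal.ofReal (G x) ∂μ ≤ ENNReal.ofReal c' := by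
    calc ∫⁻ x, ENNReal.ofReal (G x) ∂μ
        = ∫⁻ x, liminf (fun i => ENNReal.ofReal (F i x)) atTop ∂μ := by
          refine lintegral_congr_ae ?_
          filter_upwards [hae] with x hx
          exact ((ENNReal.continuous_ofReal.tendsto _).comp hx).liminf_eq.symm
      _ ≤ liminf (fun i => ∫⁻ x, ENNReal.ofReal (F i x) ∂μ) atTop :=
          lintegral_liminf_le' fun i => (hint i).1.aemeasurable.ennreal_ofReal
      _ ≤ liminf (fun i => ENNReal.ofReal (c i)) atTop := by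
          refine liminf_le_liminf (Eventually.of_forall fun i => ?_)
          rw [← ofReal_integral_eq_lintegral_ofReal (hint i) (ae_of_all _ (h0 i))]
          exact ENNReal.ofReal_le_ofReal (hc i)
      _ = ENNReal.ofReal c' := ((ENNReal.continuous_ofReal.tendsto _).comp hlim).liminf_eq
  have h2 : Integrable G μ := by
    refine ⟨hGm, ?_⟩
    rw [hasFiniteIntegral_iff_ofReal hG0]
    exact h1.trans_lt ENNReal.ofReal_lt_top
  refine ⟨h2, ?_⟩
  rw [← ofReal_integral_eq_lintegral_ofReal h2 hG0, ENNReal.ofReal_le_ofReal_iff hc0] at h1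
  exact h1

theorem exists_sub {α : Type*} [MeasurableSpace α] {μ : Measure α} {f : ℕ → α → ℝ} {u : α → ℝ}
    (hf : ∀ i, MemLp (f i) 2 μ) (hu : MemLp u 2 μ)
    (hlim : Tendsto (fun i => ∫ x, (f i x - u x) ^ 2 ∂μ) atTop (𝓝 0)) :
    ∃ ns : ℕ → ℕ, StrictMono ns ∧ ∀ᵐ x ∂μ, Tendsto (fun i => f (ns i) x) atTop (𝓝 (u x)) := by
  refine TendstoInMeasure.exists_seq_tendsto_ae
    (tendstoInMeasure_of_tendsto_eLpNorm (p := 2) two_ne_zero (fun i => (hf i).1) hu.1 ?_)
  have h1 : ∀ i, eLpNorm (f i - u) 2 μ =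
      ENNReal.ofReal ((∫ x, (f i x - u x) ^ 2 ∂μ) ^ (2⁻¹ : ℝ)) := by
    intro i
    rw [((hf i).sub hu).eLpNorm_eq_integral_rpow_norm two_ne_zero ENNReal.ofNat_ne_top]
    simp
  simp only [h1]
  have h2 : Tendsto (fun i => (∫ x, (f i x - u x) ^ 2 ∂μ) ^ (2⁻¹ : ℝ)) atTop (𝓝 0) := by
    have := hlim.rpow_const (p := (2⁻¹ : ℝ)) (Or.inr (by norm_num))
    rwa [Real.zero_rpow (by norm_num)] at this
  have h3 := (ENNReal.continuous_ofReal.tendsto _).comp h2
  rw [ENNReal.ofReal_zero] at h3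
  exact h3

theorem norm_lim {α : Type*} [MeasurableSpace α] {μ : Measure α} {f : ℕ → α → ℝ} {u : α → ℝ}
    (hf : ∀ i, MemLp (f i) 2 μ) (hu : MemLp u 2 μ) (hint : ∫ x, u x ^ 2 ∂μ = 1)
    (hlim : Tendsto (fun i => ∫ x, (f i x - u x) ^ 2 ∂μ) atTop (𝓝 0)) :
    Tendsto (fun i => ∫ x, f i x ^ 2 ∂μ) atTop (𝓝 1) := by
  have hfi : ∀ i, Integrable (fun x => f i x ^ 2) μ := fun i => (hf i).integrable_sq
  have hui : Integrable (fun x => u x ^ 2) μ := hu.integrable_sq
  have hsi : ∀ i, Integrable (fun x => (f i x - u x) ^ 2) μ := fun i =>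
    ((hf i).sub hu).integrable_sq
  have key : ∀ (δ : ℝ), 0 < δ → ∀ i, (∫ x, f i x ^ 2 ∂μ) ≤
      (1 + δ) + (1 + 1 / δ) * ∫ x, (f i x - u x) ^ 2 ∂μ := by
    intro δ hδ i
    have h1 : ∫ x, f i x ^ 2 ∂μ ≤
        ∫ x, ((1 + δ) * u x ^ 2 + (1 + 1 / δ) * (f i x - u x) ^ 2) ∂μ := by
      refine integral_mono (hfi i) ((hui.const_mul _).add ((hsi i).const_mul _)) fun x => ?_
      show f i x ^ 2 ≤ (1 + δ) * u x ^ 2 + (1 + 1 / δ) * (f i x - u x) ^ 2
      have h2 : (1 + δ) * u x ^ 2 + (1 + 1 / δ) * (f i x - u x) ^ 2 - f i x ^ 2 =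
          (δ * u x - (f i x - u x)) ^ 2 / δ := by
        field_simp
        ring
      have h3 : 0 ≤ (δ * u x - (f i x - u x)) ^ 2 / δ := by positivity
      linarith
    rw [integral_add (hui.const_mul _) ((hsi i).const_mul _), integral_const_mul,
      integral_const_mul, hint, mul_one] at h1
    exact h1
  have key2 : ∀ (δ : ℝ), 0 < δ → ∀ i, (1 - δ) - (1 / δ) * ∫ x, (f i x - u x) ^ 2 ∂μ ≤
      ∫ x, f i x ^ 2 ∂μ := by
    intro δ hδ i
    have h1 : ∫ x, ((1 - δ) * u x ^ 2 - (1 / δ) * (f i x - u x) ^ 2) ∂μ ≤ ∫ x, f i x ^ 2 ∂μ := by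
      refine integral_mono ((hui.const_mul _).sub ((hsi i).const_mul _)) (hfi i) fun x => ?_
      show (1 - δ) * u x ^ 2 - (1 / δ) * (f i x - u x) ^ 2 ≤ f i x ^ 2
      have h2 : f i x ^ 2 - ((1 - δ) * u x ^ 2 - (1 / δ) * (f i x - u x) ^ 2) =
          (δ * u x + (f i x - u x)) ^ 2 / δ + (f i x - u x) ^ 2 := by
        field_simp
        ring
      have h3 : 0 ≤ (δ * u x + (f i x - u x)) ^ 2 / δ + (f i x - u x) ^ 2 := by positivity
      linarith
    rw [integral_sub (hui.const_mul _) ((hsi i).const_mul _), integral_const_mul,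
      integral_const_mul, hint, mul_one] at h1
    exact h1
  rw [tendsto_order]
  constructor
  · intro c hc
    have hδ : 0 < (1 - c) / 2 := by linarith
    have h1 : Tendsto (fun i => (1 / ((1 - c) / 2)) * ∫ x, (f i x - u x) ^ 2 ∂μ) atTop (𝓝 0) := by
      have := hlim.const_mul (1 / ((1 - c) / 2))
      rwa [mul_zero] at this
    filter_upwards [(tendsto_order.1 h1).2 _ hδ] with i hi
    have := key2 _ hδ i
    linarith
  · intro c hc
    have hδ : 0 < (c - 1) / 2 := by linarith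
    have h1 : Tendsto (fun i => (1 + 1 / ((c - 1) / 2)) * ∫ x, (f i x - u x) ^ 2 ∂μ)
        atTop (𝓝 0) := by
      have := hlim.const_mul (1 + 1 / ((c - 1) / 2))
      rwa [mul_zero] at this
    filter_upwards [(tendsto_order.1 h1).2 _ hδ] with i hi
    have := key _ hδ i
    linarith

end P7

open P7

variable {M : Type*} [TopologicalSpace M] [CompactSpace M] [Nonempty M] [MeasurableSpace M]
  [BorelSpace M] {σ : Measure M} [IsProbabilityMeasure σ]
  {S : Set (M → ℝ)} {L : (M → ℝ) → M → ℝ} {Γ : (M → ℝ) → (M → ℝ) → M → ℝ} {n : ℝ}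

/-- `g_i = √(f_i² + ε_i)/norm`, `ε_i = 1/(i+1)`; `∫ g_i² → 1`, `∫ Γ(g_i) ≤ ∫ Γ(f_i)/norm²`; pass to
a subsequence with `f_i → u` a.e.; `x log x ≥ -1/e` and Fatou. -/
theorem Diff.lsi_lim (D : Diff σ S L Γ n) (hn : 0 < n)
    (hlsi : ∀ g ∈ S, (∀ x, 0 < g x) → ∫ x, g x ^ 2 ∂σ = 1 →
      ∫ x, g x ^ 2 * Real.log (g x ^ 2) ∂σ ≤ n * Real.log (1 + 4 * (∫ x, Γ g g x ∂σ) / n))
    {u : M → ℝ} (hu0 : ∀ x, 0 ≤ u x) (hu : MemLp u 2 σ) (hint : ∫ x, u x ^ 2 ∂σ = 1)
    {f : ℕ → M → ℝ} (hf : ∀ i, f i ∈ S)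
    (hlim : Tendsto (fun i => ∫ x, (f i x - u x) ^ 2 ∂σ) atTop (𝓝 0)) {D' : ℝ}
    (hD : Tendsto (fun i => ∫ x, Γ (f i) (f i) x ∂σ) atTop (𝓝 D')) :
    Integrable (fun x => 2 * u x ^ 2 * Real.log (u x)) σ ∧
    ∫ x, 2 * u x ^ 2 * Real.log (u x) ∂σ ≤ n * Real.log (1 + 4 * D' / n) := by
  have hfc : ∀ i, Continuous (f i) := fun i => D.cont _ (hf i)
  have hfL : ∀ i, MemLp (f i) 2 σ := fun i =>
    (hfc i).memLp_of_hasCompactSupport (HasCompactSupport.of_compactSpace _)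
  have hfi : ∀ i, Integrable (fun x => f i x ^ 2) σ := fun i => (hfL i).integrable_sq
  obtain ⟨ns, hns, hae⟩ := exists_sub hfL hu hlim
  have hB := norm_lim hfL hu hint hlim
  set ε : ℕ → ℝ := fun i => 1 / ((i : ℝ) + 1) with hε
  have hε0 : ∀ i, 0 < ε i := fun i => Nat.one_div_pos_of_nat
  have hεl : Tendsto ε atTop (𝓝 0) := tendsto_one_div_add_atTop_nhds_zero_nat
  set h : ℕ → M → ℝ := fun i x => √(f i x ^ 2 + ε i) with hh
  have hhS : ∀ i, h i ∈ S := fun i => (D.Gsqrt (hf i) (hε0 i)).1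
  have hhG : ∀ i x, Γ (h i) (h i) x ≤ Γ (f i) (f i) x := fun i => (D.Gsqrt (hf i) (hε0 i)).2
  have hh2 : ∀ i x, h i x ^ 2 = f i x ^ 2 + ε i := fun i x =>
    Real.sq_sqrt (by have := hε0 i; positivity)
  have hh0 : ∀ i x, 0 < h i x := fun i x => Real.sqrt_pos.2 (by have := hε0 i; positivity)
  set N : ℕ → ℝ := fun i => ∫ x, h i x ^ 2 ∂σ with hN
  have hN2 : ∀ i, N i = ∫ x, f i x ^ 2 ∂σ + ε i := by
    intro i
    simp only [hN, hh2]
    rw [integral_add (hfi i) (integrable_const _)]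
    simp
  have hNl : Tendsto N atTop (𝓝 1) := by
    have := hB.add hεl
    rw [add_zero] at this
    exact this.congr fun i => (hN2 i).symm
  have hN0 : ∀ i, 0 < N i := by
    intro i
    rw [hN2]
    have : 0 ≤ ∫ x, f i x ^ 2 ∂σ := integral_nonneg fun _ => by positivity
    have := hε0 i
    linarith
  set g : ℕ → M → ℝ := fun i => (√(N i))⁻¹ • h i with hg
  have hgS : ∀ i, g i ∈ S := fun i => D.smul (hhS i) _
  have hg2 : ∀ i x, g i x ^ 2 = h i x ^ 2 / N i := by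
    intro i x
    show ((√(N i))⁻¹ * h i x) ^ 2 = _
    rw [mul_pow, inv_pow, Real.sq_sqrt (hN0 i).le]
    field_simp
  have hg0 : ∀ i x, 0 < g i x := fun i x =>
    mul_pos (inv_pos.2 (Real.sqrt_pos.2 (hN0 i))) (hh0 i x)
  have hgn : ∀ i, ∫ x, g i x ^ 2 ∂σ = 1 := by
    intro i
    simp only [hg2]
    rw [integral_div]
    exact div_self (hN0 i).ne'
  have hgG : ∀ i, ∫ x, Γ (g i) (g i) x ∂σ ≤ (∫ x, Γ (f i) (f i) x ∂σ) / N i := by
    intro i
    have h1 : ∀ x, Γ (g i) (g i) x = Γ (h i) (h i) x / N i := by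
      intro x
      show Γ ((√(N i))⁻¹ • h i) ((√(N i))⁻¹ • h i) x = _
      rw [D.Gsmul (hhS i) (D.smul (hhS i) _), D.Gsmul_right (hhS i) (hhS i)]
      rw [← mul_assoc, ← mul_inv, Real.mul_self_sqrt (hN0 i).le]
      field_simp
    simp only [h1]
    rw [integral_div]
    refine div_le_div_of_nonneg_right ?_ (hN0 i).le
    exact integral_mono (D.integrable (D.memG _ (hhS i) _ (hhS i)))
      (D.integrable (D.memG _ (hf i) _ (hf i))) (hhG i)
  have hgi : ∀ i, Integrable (fun x => g i x ^ 2 * Real.log (g i x ^ 2)) σ := by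
    intro i
    have h1 : (g i * g i) ∈ S := D.mul _ (hgS i) _ (hgS i)
    have h2 := D.log_mem h1 fun x => mul_pos (hg0 i x) (hg0 i x)
    have h3 := D.integrable (D.mul _ h1 _ h2)
    refine h3.congr (ae_of_all _ fun x => ?_)
    show (g i x * g i x) * Real.log (g i x * g i x) = g i x ^ 2 * Real.log (g i x ^ 2)
    rw [← sq]
  have hF0 : ∀ t : ℝ, 0 ≤ t → 0 ≤ t * Real.log t + 1 := by
    intro t ht
    rcases ht.eq_or_lt with rfl | ht
    · simp
    · have h1 := Real.one_sub_inv_le_log_of_pos ht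
      have h2 : t * (1 - t⁻¹) ≤ t * Real.log t := mul_le_mul_of_nonneg_left h1 ht.le
      have h3 : t * (1 - t⁻¹) = t - 1 := by field_simp
      linarith
  have hD0 : 0 ≤ D' := ge_of_tendsto' hD fun i => integral_nonneg (D.Gnonneg _ (hf i))
  obtain ⟨hI, hle⟩ := fatou (μ := σ)
    (F := fun i x => g (ns i) x ^ 2 * Real.log (g (ns i) x ^ 2) + 1)
    (G := fun x => u x ^ 2 * Real.log (u x ^ 2) + 1)
    (c := fun i => n * Real.log (1 + 4 * ((∫ x, Γ (f (ns i)) (f (ns i)) x ∂σ) / N (ns i)) / n) + 1)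
    (c' := n * Real.log (1 + 4 * D' / n) + 1)
    (fun i x => hF0 _ (by positivity)) (fun i => (hgi _).add (integrable_const _))
    (fun i => by
      rw [integral_add (hgi _) (integrable_const _)]
      have h1 := hlsi (g (ns i)) (hgS _) (hg0 _) (hgn _)
      have h2 : n * Real.log (1 + 4 * (∫ x, Γ (g (ns i)) (g (ns i)) x ∂σ) / n) ≤
          n * Real.log (1 + 4 * ((∫ x, Γ (f (ns i)) (f (ns i)) x ∂σ) / N (ns i)) / n) := by
        have h3 : 0 ≤ ∫ x, Γ (g (ns i)) (g (ns i)) x ∂σ :=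
          integral_nonneg (D.Gnonneg _ (hgS _))
        have h4 := hgG (ns i)
        have h5 : 0 < 1 + 4 * (∫ x, Γ (g (ns i)) (g (ns i)) x ∂σ) / n := by positivity
        refine mul_le_mul_of_nonneg_left (Real.log_le_log h5 ?_) hn.le
        gcongr
      simp only [integral_const, probReal_univ, smul_eq_mul, mul_one]
      linarith)
    (by
      have h1 : Tendsto (fun i => (∫ x, Γ (f (ns i)) (f (ns i)) x ∂σ) / N (ns i)) atTop
          (𝓝 (D' / 1)) := (hD.comp hns.tendsto_atTop).div (hNl.comp hns.tendsto_atTop) one_ne_zero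
      rw [div_one] at h1
      have h2 : 1 + 4 * D' / n ≠ 0 := by positivity
      have h3 : Tendsto (fun i => 1 + 4 * ((∫ x, Γ (f (ns i)) (f (ns i)) x ∂σ) / N (ns i)) / n)
          atTop (𝓝 (1 + 4 * D' / n)) := ((h1.const_mul 4).div_const n).const_add 1
      exact ((h3.log h2).const_mul n).add_const 1)
    (by
      filter_upwards [hae] with x hx
      have h1 : Tendsto (fun i => g (ns i) x ^ 2) atTop (𝓝 (u x ^ 2)) := by
        simp only [hg2, hh2]
        have h2 : Tendsto (fun i => (f (ns i) x ^ 2 + ε (ns i)) / N (ns i)) atTop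
            (𝓝 ((u x ^ 2 + 0) / 1)) :=
          ((hx.pow 2).add (hεl.comp hns.tendsto_atTop)).div (hNl.comp hns.tendsto_atTop)
            one_ne_zero
        rw [add_zero, div_one] at h2
        exact h2
      exact ((Real.continuous_mul_log.tendsto _).comp h1).add_const 1)
  have heq : (fun x => 2 * u x ^ 2 * Real.log (u x)) =
      fun x => (u x ^ 2 * Real.log (u x ^ 2) + 1) - 1 := by
    funext x
    rw [Real.log_pow]
    push_cast
    ring
  rw [heq]
  refine ⟨hI.sub (integrable_const _), ?_⟩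
  rw [integral_sub hI (integrable_const _)]
  simp only [integral_const, probReal_univ, smul_eq_mul, mul_one]
  linarith

end Pool.Agent.helper31.NU
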